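import Pool.Agent.LinCW55.Main

set_option autoImplicit false

/-!
# MP_8c78f3_co, Q1: linear clique-width of `H`-free bipartite graphs

For a finite graph `H`, the class of `H`-free bipartite graphs has bounded linear clique-width if
and only if `H` is edgeless or an induced subgraph of one of `K_{1,3} + 3 P_1`, `K_{1,3} + P_2`,
`P_1 + S_{1,1,3}`, `S_{1,2,2}`.
-/

namespace Pool.Agent.Results.MP_8c78f3_co.Classification

open SimpleGraph Pool.Agent.LinCW

theorem result (W : Type) [Finite W] (H : SimpleGraph W) :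
    BoundedLCW (fun _ G => G.IsBipartite ∧ ¬ H ⊴ G) ↔
      H = ⊥ ∨ H ⊴ claw ⊕g edgeless 3 ∨ H ⊴ claw ⊕g pathGraph 2 ∨ H ⊴ edgeless 1 ⊕g S113 ∨
        H ⊴ S122 :=
  main H

end Pool.Agent.Results.MP_8c78f3_co.Classification
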